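import Pool.Agent.H19.FLN.F1s

/-!
# The dead velocity of a place, or no drop

`F1UD`, `VelUD`: as `F1US`, `VelUS`, the conclusion or else no drop of the level at the window.
`celZ_f1d`: then there is no drop at the place `r`. `F1US.d`: `F1US` implies `F1UD`.
-/

set_option autoImplicit false

namespace Pool.PKG

open Finset Real
open Pool.Agent.H49.Ent Pool.Agent.H32.Dense Pool.STK Pool.KA Pool.KSAT Pool.K2S Pool.PB
open Pool.GEN Pool.S6C Pool.STAT Pool.CHT Pool.GRW Pool.ONE Pool.STA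
open Pool.LBT (LSys ThrOf)
open Pool.LEV (Law)
open Pool.ALL (RateOf)
open Pool.ISO (PtD lvN WinD)
open Pool.V1E (vF vF_ge TlW HnN HfN VfW XiN x10f_fin SlH VfN x10n_fin VuN vfw_of rstC)
open Pool.LA91 (TlAt epT slT FaQ sumQ qJets qJet)
open Pool.OWN68 (F1)
open Pool.RCD (vg)

/-- **The first jet of the place** `r` is few bits, under the hypothesis `Z lam` on the class, in a
nonempty subclass chosen after the windows. -/
def F1UD (m r : ℕ) (h : ℝ) (Sl : ℕ → ℝ) (κ : ℕ → Kg) {ι Λ : Type} (Q : PropG m ι)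
    (Z : PropZ m Λ) : Prop :=
  ∀ al : ℝ, 0 < al → ∀ K₀ : ℝ, 0 < K₀ → ∀ del : ℝ, 0 < del → ∀ S₀ : ℕ, 1 ≤ S₀ →
  ∃ (Kr : ℝ) (Nr : ℕ) (Ar Vr : ℕ → ℝ), 1 ≤ Kr ∧ (∀ k < Nr, -Kr ≤ Vr k ∧ Vr k ≤ Ar k ∧ Ar k ≤ Kr) ∧
  ∀ S₂ : ℕ, S₀ ≤ S₂ → ∀ dd : ℝ, 0 < dd →
  ∃ (lam : Λ) (kf φ : ℝ), Sl r ≤ kf ∧ 0 < φ ∧
  ∃ (K₁ : ℝ) (Nv : ℕ) (Vv : ℕ → ℝ), (∀ j < Nv, -K₁ ≤ Vv j ∧ Vv j ≤ K₁) ∧ ∀ K' : ℝ, K₁ ≤ K' →
  ∃ ε₀ : ℝ, 0 < ε₀ ∧ ∀ ε : ℝ, 0 < ε → ε ≤ ε₀ →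
  ∀ (S : PCl m) (g₀ : ℝ → ℝ) (P : List (Fin m) × Fin m → ℝ → ℝ → ℝ)
    (θ : ℝ) (P₂ : ℕ → List (Fin m) × Fin m → ℝ → ℝ → ℝ) (θ₂ Eb e₂ : ℕ → ℝ) (c : ℕ → Fin m)
    (Pt : ℝ → ℝ → ℝ) (rt : ℝ → ℝ) (L T : ℕ → ℝ → ℝ → ℝ) (G : Set ℝ) (g : ℝ),
    IsClosed G → g ∈ G → (∀ l < m, HasDerivAt (fun x => L l x x) (Sl l) g) →
    Z lam S P θ c Pt rt L T κ G g →
    ∃ (p : ℕ → ι) (M : ℕ) (B₀ B₁ : ℕ → ℝ),
    (∀ j < M, B₀ j < B₁ j) ∧ ∀ k₀ : ℕ → ℕ, (∀ j < M, Q (p j) (k₀ j) S P θ c Pt rt L T κ G g) →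
    ∃ q₁ : ℝ, 0 < q₁ ∧ ∀ (q t : ℝ) (x : ℕ → ℝ),
      q < q₁ → (∀ j < M, x j ∈ G ∧ t + B₀ j * q ≤ x j ∧ x j ≤ t + B₁ j * q ∧
        Q (p j) (k₀ j) S P θ c Pt rt L T κ G (x j)) →
      ∀ (N : ℕ) (A V : ℕ → ℝ) (N' : ℕ) (V' : ℕ → ℝ),
      RecG S al g₀ P θ P₂ θ₂ Eb e₂ c Pt rt h K₀ g L T Sl κ G S₀ N A V S₂ N' V' K' ε q t →
      (∀ k < Nr, ∃ j < N, A j = Ar k ∧ V j = Vr k) → (∀ k < Nv, ∃ j < N', V' j = Vv k) →
      ∀ (pf : ℕ → ℝ) (pr : ℝ) (Nf : ℕ → ℕ → ℝ),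
      (∀ l < r, L l t t - φ * q ≤ pf l ∧ pf l ≤ L l t t) →
      L r t t - φ * q ≤ pr → pr ≤ L r t t →
      (∀ l < r, ∀ j ≤ 1, Nf l j = L l t t + kf * q - (j : ℕ) * t) →
      (∃ S' : PCl m, S'.Ne ∧
        (∀ (τ : ℝ) (J : ℕ) (F : Fam m J) (A : F.Ω → Prop), S'.St τ J F A → S.St τ J F A) ∧
        ∃ e : ℝ, 0 < e ∧ F1 S' (fun J F => ptr F J) (vg t) (fun _ F => F.T)
          (qJets m c 0 r 1 (fun _ _ => t) (fun l _ => pf l) Nf)
          (qJet m ((range r).image c) (c r) 1 t pr (L r t t + (Sl r - 1) * q - t)) e (dd * q)) ∨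
      L r (t + q) (t + q) ≤ L r (t + q) t + del * q

/-- **The dead velocity of the place** `r`, in a nonempty subclass chosen after the windows. -/
def VelUD (m r : ℕ) (h : ℝ) (Sl : ℕ → ℝ) (κ : ℕ → Kg) {ι Λ : Type} (Q : PropG m ι)
    (Z : PropZ m Λ) : Prop :=
  ∀ al : ℝ, 0 < al → ∀ K₀ : ℝ, 0 < K₀ → ∀ del : ℝ, 0 < del → ∀ S₀ : ℕ, 1 ≤ S₀ →
  ∃ (Kr : ℝ) (Nr : ℕ) (Ar Vr : ℕ → ℝ), 1 ≤ Kr ∧ (∀ k < Nr, -Kr ≤ Vr k ∧ Vr k ≤ Ar k ∧ Ar k ≤ Kr) ∧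
  ∀ S₂ : ℕ, S₀ ≤ S₂ → ∀ (D Dr : ℕ) (C δ : ℝ), 1 ≤ D → D ≤ Dr → 1 ≤ C → 0 < δ → δ ≤ 1 →
  ∃ (lam : Λ) (kf h₁ : ℝ), Sl r ≤ kf ∧ 0 < h₁ ∧ ∀ hh k₁ : ℝ, 0 < hh → hh ≤ h₁ → kf + 8 ≤ k₁ →
  ∃ (K₁ : ℝ) (Nv : ℕ) (Vv : ℕ → ℝ), (∀ j < Nv, -K₁ ≤ Vv j ∧ Vv j ≤ K₁) ∧ ∀ K' : ℝ, K₁ ≤ K' →
  ∃ ε₀ : ℝ, 0 < ε₀ ∧ ∀ ε : ℝ, 0 < ε → ε ≤ ε₀ →
  ∀ (S : PCl m) (g₀ : ℝ → ℝ) (P : List (Fin m) × Fin m → ℝ → ℝ → ℝ)
    (θ : ℝ) (P₂ : ℕ → List (Fin m) × Fin m → ℝ → ℝ → ℝ) (θ₂ Eb e₂ : ℕ → ℝ) (c : ℕ → Fin m)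
    (Pt : ℝ → ℝ → ℝ) (rt : ℝ → ℝ) (L T : ℕ → ℝ → ℝ → ℝ) (G : Set ℝ) (g : ℝ),
    IsClosed G → g ∈ G → (∀ l < m, HasDerivAt (fun x => L l x x) (Sl l) g) →
    Z lam S P θ c Pt rt L T κ G g →
    ∃ (p : ℕ → ι) (M : ℕ) (B₀ B₁ : ℕ → ℝ),
    (∀ j < M, B₀ j < B₁ j) ∧ ∀ k₀ : ℕ → ℕ, (∀ j < M, Q (p j) (k₀ j) S P θ c Pt rt L T κ G g) →
    ∃ q₁ : ℝ, 0 < q₁ ∧ ∀ (q t : ℝ) (x : ℕ → ℝ),
      q < q₁ → (∀ j < M, x j ∈ G ∧ t + B₀ j * q ≤ x j ∧ x j ≤ t + B₁ j * q ∧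
        Q (p j) (k₀ j) S P θ c Pt rt L T κ G (x j)) →
      ∀ (N : ℕ) (A V : ℕ → ℝ) (N' : ℕ) (V' : ℕ → ℝ),
      RecG S al g₀ P θ P₂ θ₂ Eb e₂ c Pt rt h K₀ g L T Sl κ G S₀ N A V S₂ N' V' K' ε q t →
      (∀ k < Nr, ∃ j < N, A j = Ar k ∧ V j = Vr k) → (∀ k < Nv, ∃ j < N', V' j = Vv k) →
      L r (t + q) (t + q) ≤ L r (t + q) t + del * q ∨ ∃ S' : PCl m, S'.Ne ∧
        (∀ (τ : ℝ) (J : ℕ) (F : Fam m J) (A : F.Ω → Prop), S'.St τ J F A → S.St τ J F A) ∧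
      ∀ (N₂ : ℕ) (vw : ℕ → ℝ) (κ' : ℝ) (qf : ℕ → Fin r → ℕ) (Pq : Fin r → ℝ), 0 < κ' →
      (∀ i, (kf + 1) * q ≤ Pq i) → (∀ (J : ℕ) (i : Fin r), Pq i * J - 2 ≤ qf J i) →
      ∃ K₂ : ℝ, 0 < K₂ ∧
      VfW S' c r D Dr N₂ C (t + (Sl r + 1) * q) (Eb r) (3 * ε * q) (hh * q) (hh * q) (Sl r * q)
        (kf * q) (L r) (fun k => t + vF k₁ vw k * q)
        (fun k l => lvN P c r (L r) l (t + vF k₁ vw k * q) (t + vF k₁ vw k * q))
        (fun k l => bet P c l (t + (Sl r + 1) * q) (t + vF k₁ vw k * q)) κ' qf δ K₂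

/-- **From a subclass.** -/
theorem F1US.d {m r : ℕ} {h : ℝ} {Sl : ℕ → ℝ} {κ : ℕ → Kg} {ι Λ : Type} {Q : PropG m ι}
    {Z : PropZ m Λ} (hF : F1US m r h Sl κ Q Z) : F1UD m r h Sl κ Q Z := by
  intro al hal K₀ hK₀ del _ S₀ hS₀
  obtain ⟨Kr, Nr, Ar, Vr, hKr, hAV, hF⟩ := hF al hal K₀ hK₀ S₀ hS₀
  refine ⟨Kr, Nr, Ar, Vr, hKr, hAV, fun S₂ hS₂ dd hdd => ?_⟩
  obtain ⟨lam, kf, φ, hkf, hφ, K₁, Nv, Vv, hVv, hF⟩ := hF S₂ hS₂ dd hdd
  refine ⟨lam, kf, φ, hkf, hφ, K₁, Nv, Vv, hVv, fun K' hK' => ?_⟩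
  obtain ⟨ε₀, hε₀, hF⟩ := hF K' hK'
  refine ⟨ε₀, hε₀, fun ε hε hεε S g₀ P θ P₂ θ₂ Eb e₂ c Pt rt L T G g hG hg hd hZ => ?_⟩
  obtain ⟨p, M, B₀, B₁, hB, hF⟩ := hF ε hε hεε S g₀ P θ P₂ θ₂ Eb e₂ c Pt rt L T G g hG hg hd hZ
  refine ⟨p, M, B₀, B₁, hB, fun k₀ hk₀ => ?_⟩
  obtain ⟨q₁, hq₁, hF⟩ := hF k₀ hk₀
  exact ⟨q₁, hq₁, fun q t x hq hx N A V N' V' R hp hv pf pr Nf h1 h2 h3 h4 =>
    Or.inl (hF q t x hq hx N A V N' V' R hp hv pf pr Nf h1 h2 h3 h4)⟩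

/-- **From the class.** -/
theorem F1UZ.d {m r : ℕ} {h : ℝ} {Sl : ℕ → ℝ} {κ : ℕ → Kg} {ι Λ : Type} {Q : PropG m ι}
    {Z : PropZ m Λ} (hF : F1UZ m r h Sl κ Q Z) : F1UD m r h Sl κ Q Z := hF.s.d

/-- **The dead velocity of a place** from its first jet, in a subclass. -/
theorem velUD_of_f1 {m r : ℕ} (hrm : r < m) {h : ℝ} {Sl : ℕ → ℝ} {κ : ℕ → Kg} (hs : 0 ≤ Sl r)
    {ι Λ : Type} {Q : PropG m ι} {Z : PropZ m Λ} (hF : F1UD m r h Sl κ Q Z) :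
    VelUD m r h Sl κ Q Z := by
  intro al hal K₀ hK₀ del hdel S₀ hS₀
  obtain ⟨Kr, Nr, Ar, Vr, hKr, hAV, hF⟩ := hF al hal K₀ hK₀ del hdel S₀ hS₀
  refine ⟨Kr, Nr, Ar, Vr, hKr, hAV, fun S₂ hS₂ D Dr C δ hD hDr hC hδ hδ1 => ?_⟩
  obtain ⟨lam, kf, φ, hkf, hφ, K₁, Nv, Vv, hVv, hF⟩ := hF S₂ hS₂ (δ / 2) (by linarith only [hδ])
  obtain ⟨C', hC', hvf⟩ := vfw_of D r
  have hC0 : 0 < C := by linarith only [hC]
  have hC'0 : 0 < C' := by linarith only [hC']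
  obtain ⟨h₁, hh₁⟩ : ∃ h₁ : ℝ, h₁ = min φ (min (1 / 2) (δ / (8 * (C' * C)))) := ⟨_, rfl⟩
  have hh0 : 0 < h₁ := by rw [hh₁]; positivity
  have hhφ : h₁ ≤ φ := by rw [hh₁]; exact min_le_left _ _
  have hh2 : h₁ ≤ 1 / 2 := by rw [hh₁]; exact (min_le_right _ _).trans (min_le_left _ _)
  have hh3 : h₁ ≤ δ / (8 * (C' * C)) := by
    rw [hh₁]; exact (min_le_right _ _).trans (min_le_right _ _)
  rw [le_div_iff₀ (by positivity)] at hh3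
  refine ⟨lam, kf, h₁, hkf, hh0, fun hh k₁ hhp hhl hk₁ => ?_⟩
  refine ⟨max K₁ (k₁ + C + 1), Nv, Vv, fun j hj => ?_, fun K' hK' => ?_⟩
  · obtain ⟨h1, h2⟩ := hVv j hj
    have h3 := le_max_left K₁ (k₁ + C + 1)
    exact ⟨by linarith only [h1, h3], h2.trans h3⟩
  obtain ⟨ε₀, hε₀, hF⟩ := hF K' ((le_max_left _ _).trans hK')
  have hKk : k₁ + C + 1 ≤ K' := (le_max_right _ _).trans hK'
  refine ⟨ε₀, hε₀, fun ε hε hεε S g₀ P θ P₂ θ₂ Eb e₂ c Pt rt L T G g hG hg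
    hder hZ => ?_⟩
  obtain ⟨p, M, B₀, B₁, hB, hF⟩ := hF ε hε hεε S g₀ P θ P₂ θ₂ Eb e₂ c Pt rt L T G g hG hg hder hZ
  refine ⟨p, M, B₀, B₁, hB, fun k₀ hgk => ?_⟩
  obtain ⟨q₁, hq₁, hF⟩ := hF k₀ hgk
  refine ⟨q₁, hq₁, fun q t x hq hx N A V N' V' R hp hv => ?_⟩
  have hq0 := R.q0
  have ht0 := R.t0
  have ht1 := R.t1
  have hlv : ∀ l ≤ r, lvN P c r (L r) l t t = L l t t := fun l hl => by rw [← R.lv_at hrm hl]
  -- products
  have hkq : 0 ≤ kf * q := mul_nonneg (hs.trans hkf) hq0.le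
  have hsq : 0 ≤ Sl r * q := mul_nonneg hs hq0.le
  have hhq : 0 < hh * q := mul_pos hhp hq0
  have hhq2 : hh * q ≤ 1 / 2 * q := mul_le_mul_of_nonneg_right (hhl.trans hh2) hq0.le
  have hhφq : hh * q ≤ φ * q := mul_le_mul_of_nonneg_right (hhl.trans hhφ) hq0.le
  have hk1q : kf * q + 8 * q ≤ k₁ * q := by
    have := mul_le_mul_of_nonneg_right hk₁ hq0.le
    linarith only [this]
  have hKq : k₁ * q + C * q + q ≤ K' * q := by
    have := mul_le_mul_of_nonneg_right hKk hq0.le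
    linarith only [this]
  have hCq : 0 < C * q := mul_pos hC0 hq0
  have ht : 0 ≤ t := by linarith only [ht0, hKq, hk1q, hCq, hkq, hq0]
  have ht' : t ≤ 1 := by linarith only [ht1, hKq, hk1q, hCq, hkq, hq0]
  have hCh : C * (hh * q) ≤ C * q := by
    refine mul_le_mul_of_nonneg_left ?_ hC0.le
    linarith only [hhq2, hq0]
  have hsm : C' * (C * (hh * q + hh * q)) ≤ δ / 4 * q := by
    have h1 : C' * C * 8 * hh ≤ C' * C * 8 * h₁ :=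
      mul_le_mul_of_nonneg_left hhl (by positivity)
    have h2 : C' * C * 8 * hh ≤ δ := by linarith only [h1, hh3]
    have h3 := mul_le_mul_of_nonneg_right h2 hq0.le
    have h4 : C' * (C * (hh * q + hh * q)) = C' * C * 8 * hh * q / 4 := by ring
    rw [h4]
    linarith only [h3]
  have hδq : 0 < δ * q := mul_pos hδ hq0
  refine (hF q t x hq hx N A V N' V' R hp hv (fun l => lvN P c r (L r) l t t - hh * q)
    (L r t t - hh * q) (fun l j => lvN P c r (L r) l t t + kf * q - (j : ℕ) * t)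
    (fun l hl => by
      rw [hlv l hl.le]
      exact ⟨by linarith only [hhφq], by linarith only [hhq]⟩)
    (by linarith only [hhφq]) (by linarith only [hhq]) (fun l hl j _ => by rw [hlv l hl.le])).symm.imp
    id ?_
  rintro ⟨S', hne, hsub, e, he, hF⟩
  refine ⟨S', hne, hsub, fun N₂ vw κ' qf Pq hκ' hPq hqf => ?_⟩
  have e0 : t + vF k₁ vw 0 * q = t := by simp [vF]
  have e2 : t + vF k₁ vw 2 * q = t - k₁ * q := by simp [vF]; ring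
  have e3 : t + vF k₁ vw 3 * q = t + q := by simp [vF]
  refine ⟨1, one_pos, hvf (kf := kf * q) (pr := L r t t - hh * q)
    (N₁ := L r t t + (Sl r - 1) * q - t) (e := e) (d := δ / 2 * q)
    (pf := fun l => lvN P c r (L r) l t t - hh * q) (Pq := Pq)
    (fun τ J F A h => R.pos τ J F A (hsub τ J F A h)) ?_ ?_⟩
  · simp only [e0]
    exact hF
  · exact
      { C1 := hC
        η0 := hhq
        ζ0 := hhq.le
        mb0 := hsq
        kk0 := hkq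
        kf0 := hkq
        o0 := by
          simp only [e2]
          linarith only [ht0, hKq, hCq, hq0]
        o01 := by
          simp only [e0, e2]
          linarith only [hk1q, hkq, hq0]
        o12 := by
          simp only [e0, e3]
          linarith only [hq0]
        l0 := fun l hl => by
          simp only [e0]
          rw [hlv l hl]
          exact ht.trans (R.low_at (by omega) ht le_rfl ht')
        pf0 := fun l hl => by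
          simp only [e0]
          linarith only [he]
        pr0 := by
          simp only [e0]
          rw [hlv r le_rfl]
          linarith only [he]
        kq := by
          simp only [e0, e3]
          linarith only [hhq2, hq0]
        kf1 := by
          simp only [e0, e2]
          linarith only [hhq2, hk1q, hq0]
        kf2 := fun i => by
          have := hPq i
          linarith only [this, hhq2, hq0]
        qf1 := hqf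
        N1 := by
          simp only [e0, e3]
          rw [hlv r le_rfl]
          linarith only []
        oJ := by
          simp only [e0]
          linarith only [hCh, ht1, hKq, hk1q, hkq, hq0]
        δ0 := hδ
        sm := by
          simp only [e0, e3]
          linarith only [hsm, hδq] }

/-- **The class theorem of a steep coordinate** over coordinates of slope one, from its velocity in a
subclass. -/
theorem celZ_ud {m r : ℕ} (hr : 1 ≤ r) (hrm : r < m) {h : ℝ} {Sl : ℕ → ℝ} {κ : ℕ → Kg}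
    (hκ : ∀ l < r, κ l = .one) (hκt : κ r = .stp) (hs : 2 < Sl r) {ι Λ : Type} {Q : PropG m ι}
    {Z : PropZ m Λ} (hV : VelUD m r h Sl κ Q Z) : CelZ m r h Sl κ (sumQ Q FaQ) Z := by
  intro al hal K₀ hK₀ del hdel S₀ hS₀
  obtain ⟨Kr, Nr, Ar, Vr, hKr, hAV, hV⟩ := hV al hal K₀ hK₀ del hdel S₀ hS₀
  obtain ⟨CM, hCM⟩ := exists_nat_gt (Sl r)
  have hr0 : (0 : ℝ) ≤ r := Nat.cast_nonneg r
  obtain ⟨A, hA⟩ : ∃ A : ℕ → ℝ, A = fun k => if k < 2 then Sl r + 1 else if k = 2 then 1 else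
    Ar (k - 3) := ⟨_, rfl⟩
  obtain ⟨V, hVd⟩ : ∃ V : ℕ → ℝ, V = fun k => if k = 0 then 0 else if k = 1 then 3 / 2 else
    if k = 2 then 0 else Vr (k - 3) := ⟨_, rfl⟩
  have a0 : A 0 = Sl r + 1 := by simp [hA]
  have a1 : A 1 = Sl r + 1 := by simp [hA]
  have a2 : A 2 = 1 := by simp [hA]
  have a3 : ∀ k, A (3 + k) = Ar k := fun k => by
    simp only [hA]
    rw [if_neg (by omega), if_neg (by omega)]
    congr 1
    omega
  have v0 : V 0 = 0 := by simp [hVd]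
  have v1 : V 1 = 3 / 2 := by simp [hVd]
  have v2 : V 2 = 0 := by simp [hVd]
  have v3 : ∀ k, V (3 + k) = Vr k := fun k => by
    simp only [hVd]
    rw [if_neg (by omega), if_neg (by omega), if_neg (by omega)]
    congr 1
    omega
  refine ⟨max Kr (Sl r + 1), 3 + Nr, A, V, le_max_of_le_left hKr, fun k hk => ?_,
    fun S₂ hS₂ => ?_⟩
  · have m1 := le_max_left Kr (Sl r + 1)
    have m2 := le_max_right Kr (Sl r + 1)
    rcases Nat.lt_or_ge k 3 with h3 | h3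
    · interval_cases k
      · rw [v0, a0]
        exact ⟨by linarith, by linarith, by linarith⟩
      · rw [v1, a1]
        exact ⟨by linarith, by linarith, by linarith⟩
      · rw [v2, a2]
        exact ⟨by linarith, by linarith, by linarith⟩
    · obtain ⟨j, rfl⟩ : ∃ j, k = 3 + j := ⟨k - 3, by omega⟩
      rw [a3, v3]
      obtain ⟨h4, h5, h6⟩ := hAV j (by omega)
      exact ⟨by linarith, h5, by linarith⟩
  obtain ⟨D, hD, hx⟩ := x10f_fin m r S₂ CM hr (hS₀.trans hS₂) (Sl r) hs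
  obtain ⟨C, hC, hx⟩ := hx D le_rfl
  obtain ⟨δ, C', hδ, hδ1, hC', h₀, hh₀, hx⟩ := hx del hdel
  obtain ⟨lam, kf, h₁, hkf, hh₁, hV⟩ := hV S₂ hS₂ D D C δ hD le_rfl hC hδ hδ1
  obtain ⟨CT, hCT⟩ := exists_nat_ge (2 * kf + 7 * r + 18)
  have hCT0 : (0 : ℝ) ≤ CT := Nat.cast_nonneg CT
  obtain ⟨k₁, hk₁⟩ : ∃ k₁ : ℝ, k₁ = CT + 7 * r + 13 := ⟨_, rfl⟩
  have hC0 : 0 < C := by linarith
  have hC'0 : 0 < C' := by linarith
  obtain ⟨κT, hκT0, hκTδ⟩ : ∃ x : ℚ, (0 : ℝ) < x ∧ (x : ℝ) < δ := exists_rat_btwn hδ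
  have hep : 0 < epT r 1 κT := by
    unfold epT
    push_cast
    positivity
  have hsl : 0 < slT r 1 κT := by
    unfold slT epT
    push_cast
    positivity
  obtain ⟨ρ, hρ⟩ : ∃ ρ : ℝ, ρ = min (1 / 2) (δ / (4 * C')) := ⟨_, rfl⟩
  have hρ0 : 0 < ρ := by rw [hρ]; positivity
  have hρ1 : ρ ≤ 1 / 2 := by rw [hρ]; exact min_le_left _ _
  have hρ2 : 4 * C' * ρ ≤ δ := by
    have : ρ ≤ δ / (4 * C') := by rw [hρ]; exact min_le_right _ _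
    rw [le_div_iff₀ (by positivity)] at this
    linarith
  obtain ⟨v₀, hv₀⟩ : ∃ v₀ : ℝ, v₀ = min h₀ (min h₁ (min (1 / 2) (min (slT r 1 κT / 2)
      (min (ρ / (2 * (C + 2))) (δ / (4 * (C' * (2 * C + 3)))))))) := ⟨_, rfl⟩
  have hv0 : 0 < v₀ := by rw [hv₀]; positivity
  have hvm : v₀ ≤ h₀ ∧ v₀ ≤ h₁ ∧ v₀ ≤ 1 / 2 ∧ v₀ ≤ slT r 1 κT / 2 ∧ v₀ ≤ ρ / (2 * (C + 2)) ∧
      v₀ ≤ δ / (4 * (C' * (2 * C + 3))) := by
    rw [hv₀]
    exact ⟨min_le_left _ _, (min_le_right _ _).trans (min_le_left _ _),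
      (min_le_right _ _).trans ((min_le_right _ _).trans (min_le_left _ _)),
      (min_le_right _ _).trans ((min_le_right _ _).trans ((min_le_right _ _).trans
        (min_le_left _ _))),
      (min_le_right _ _).trans ((min_le_right _ _).trans ((min_le_right _ _).trans
        ((min_le_right _ _).trans (min_le_left _ _)))),
      (min_le_right _ _).trans ((min_le_right _ _).trans ((min_le_right _ _).trans
        ((min_le_right _ _).trans (min_le_right _ _))))⟩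
  obtain ⟨hv1, hv2, hv3, hv4, hv5, hv6⟩ := hvm
  rw [le_div_iff₀ (by positivity)] at hv5 hv6
  obtain ⟨K₁, Nv, Vv, hVv, hV⟩ := hV v₀ k₁ hv0 hv2 (by linarith)
  obtain ⟨K, hK⟩ : ∃ K : ℝ, K = max (max Kr (Sl r + 1)) (max K₁ (2 * Sl r + k₁ + kf + 6)) :=
    ⟨_, rfl⟩
  have hKa : max Kr (Sl r + 1) ≤ K := by rw [hK]; exact le_max_left _ _
  have hKb : K₁ ≤ K := by rw [hK]; exact (le_max_left _ _).trans (le_max_right _ _)
  have hKc : 2 * Sl r + k₁ + kf + 6 ≤ K := by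
    rw [hK]
    exact (le_max_right _ _).trans (le_max_right _ _)
  obtain ⟨ε₀, hε₀, hV⟩ := hV K hKb
  obtain ⟨ε, hε⟩ : ∃ ε : ℝ, ε = min ε₀ (min (v₀ / 2) (min (v₀ / (6 * C)) (epT r 1 κT / 4))) :=
    ⟨_, rfl⟩
  have hεp : 0 < ε := by rw [hε]; positivity
  have hεm : ε ≤ ε₀ ∧ ε ≤ v₀ / 2 ∧ ε ≤ v₀ / (6 * C) ∧ ε ≤ epT r 1 κT / 4 := by
    rw [hε]
    exact ⟨min_le_left _ _, (min_le_right _ _).trans (min_le_left _ _),
      (min_le_right _ _).trans ((min_le_right _ _).trans (min_le_left _ _)),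
      (min_le_right _ _).trans ((min_le_right _ _).trans (min_le_right _ _))⟩
  obtain ⟨hε1, hε2, hε3, hε4⟩ := hεm
  rw [le_div_iff₀ (by positivity)] at hε3
  have hCε : 0 < C * ε := mul_pos hC0 hεp
  obtain ⟨V', hV'⟩ : ∃ V' : ℕ → ℝ, V' = fun k => if k = 0 then -k₁ else if k = 1 then 1 else
    if k = 2 then 1 + ρ else Vv (k - 3) := ⟨_, rfl⟩
  have w0 : V' 0 = -k₁ := by simp [hV']
  have w1 : V' 1 = 1 := by simp [hV']
  have w2 : V' 2 = 1 + ρ := by simp [hV']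
  have w3 : ∀ k, V' (3 + k) = Vv k := fun k => by
    simp only [hV']
    rw [if_neg (by omega), if_neg (by omega), if_neg (by omega)]
    congr 1
    omega
  refine ⟨lam, K, 3 + Nv, V', hKa, fun k hk => ?_, ε, hεp, ?_⟩
  · rcases Nat.lt_or_ge k 3 with h3 | h3
    · interval_cases k
      · rw [w0]
        constructor <;> linarith
      · rw [w1]
        constructor <;> linarith
      · rw [w2]
        constructor <;> linarith
    · obtain ⟨j, rfl⟩ : ∃ j, k = 3 + j := ⟨k - 3, by omega⟩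
      rw [w3]
      obtain ⟨h4, h5⟩ := hVv j (by omega)
      exact ⟨by linarith, by linarith⟩
  intro S g₀ P θ P₂ θ₂ Eb e₂ c Pt rt L T G g hG hg hder hZ
  obtain ⟨p, M, B₀, B₁, hB, hV⟩ := hV ε hεp hε1 S g₀ P θ P₂ θ₂ Eb e₂ c Pt rt L T G g hG hg hder hZ
  refine ⟨fun j => if j < M then Sum.inl (p j) else Sum.inr (r, CT, 1, κT), M + 1,
    fun j => if j < M then B₀ j else (kf + 1) - CT - (7 * r + 11) / 2,
    fun j => if j < M then B₁ j else -(CT / 2 + 7 * r + 13), fun j hj => ?_, fun k₀ hgk => ?_⟩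
  · by_cases h4 : j < M
    · simp only [h4, if_true]
      exact hB j h4
    · simp only [h4, if_false]
      linarith
  obtain ⟨q₁, hq₁, hV⟩ := hV k₀ fun j hj => by
    have h4 := hgk j (by omega)
    simp only [hj, if_true] at h4
    exact h4
  refine ⟨min q₁ ((1 / 2) ^ k₀ M), lt_min hq₁ (by positivity), fun q t x hq hxj R₀ => ?_⟩
  refine (hV q t x (hq.trans_le (min_le_left _ _)) (fun j hj => by
      obtain ⟨h4, h5, h6, h7⟩ := hxj j (by omega)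
      simp only [hj, if_true] at h5 h6 h7
      exact ⟨h4, h5, h6, h7⟩) _ _ _ _ _ R₀
    (fun k hk => ⟨3 + k, by omega, a3 k, v3 k⟩) (fun k hk => ⟨3 + k, by omega, w3 k⟩)).elim id ?_
  rintro ⟨S', hne, hsub, hV⟩
  have R := R₀.sub hne hsub
  have hq0 := R.q0
  obtain ⟨k, hk0, hk1, hk2⟩ := Pool.PKG.pow_near hq0 (hq.trans_le (min_le_right _ _))
  -- the time line
  obtain ⟨-, hx1, hx2, hxQ⟩ := hxj M (Nat.lt_succ_self M)
  simp only [lt_irrefl, if_false] at hx1 hx2 hxQ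
  have hTl := (FaQ.sub hsub hxQ).tl hrm hκ (by norm_num) (by norm_num) (by exact_mod_cast hκT0) k hk0
  have hmG : t - k₁ * q ∈ G := by
    have := R.memG.2 0 (by omega)
    rw [w0] at this
    have e : t + -k₁ * q = t - k₁ * q := by ring
    rwa [e] at this
  obtain ⟨qf, nt, P₁, fr, hT, hqf, hTW, hHn⟩ := R.tl_scale hr hrm le_rfl hκ (CM := CM)
    (s := Sl r) (C' := C') (δ := δ) (h := v₀) (X := 2 * (C * v₀)) (κT := κT) (σ := 1)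
    (vw := fun _ => 1 + ρ) (x := x M) hmG (by linarith) hkf hCM hC' hδ1 (by norm_num) le_rfl hκT0
    hκTδ hv0.le (by positivity) (by nlinarith) (by linarith) hv3 hεp.le (by linarith)
    (by linarith) hk₁ hCT (by linarith) hk1 hk2 (by linarith) (by linarith) hTl
  have hHf := (hHn (C * (v₀ * q + v₀ * q)) (by ring)).toF hC rfl
  -- the hyperplanes
  obtain ⟨aq, hNN⟩ := R.nhNF hr hrm hκ (j := 2) (by omega) (C := C) (δ := δ) (C' := C') (ρ := ρ)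
    (v₀ := v₀) (k₁ := k₁) (vw := fun _ => 1 + ρ) w2 rfl hC hC' hδ hδ1 hv0 hρ0 hρ1 (by nlinarith)
    (by nlinarith) hεp.le (by linarith) (by linarith) (by linarith)
  -- the record
  have hRf := R.recFr (k₁ := k₁) (vw := fun _ => 1 + ρ) (N₂ := 4) hr hrm hκ hκt (by norm_num)
    (fun k hk => by
      interval_cases k
      · exact ⟨0, by omega, a0, by rw [v0]; simp [vF]⟩
      · exact ⟨1, by omega, a1, by rw [v1]; norm_num [vF]⟩)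
    ⟨2, by omega, a2, v2⟩
    (fun k hk hk' => by
      interval_cases k
      · exact ⟨0, by omega, by rw [w0]; simp [vF]⟩
      · exact ⟨1, by omega, by rw [w1]; simp [vF]⟩
      · exact ⟨2, by omega, by rw [w2, vF_ge le_rfl]⟩)
    (fun k _ _ => by linarith) (fun k _ _ => by linarith) hS₂ hεp.le (by linarith) (by linarith)
  -- the velocity
  obtain ⟨K₂, hK₂, hVf⟩ := hV 4
    (fun _ => 1 + ρ) 1 qf (fun i => P₁ i - nt i) one_pos (fun i => by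
      have h4 := hHf.P2 i
      have e0 : t + vF k₁ (fun _ => 1 + ρ) 0 * q = t := by simp [vF]
      have e3 : t + vF k₁ (fun _ => 1 + ρ) 3 * q = t + q := by simp [vF]
      simp only [e0, e3] at h4
      linarith) (fun J i => by
      have := (abs_le.1 (hHf.qf1 J i)).1
      linarith)
  exact hx v₀ hv0 hv1 hRf (by linarith) (by linarith) hqf one_pos hK₂ le_rfl hVf hTW hHf hNN

/-- **The class theorem of a steep coordinate** over coordinates of slope one, from its first jet in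
a subclass. -/
theorem celZ_f1d {m r : ℕ} (hr : 1 ≤ r) (hrm : r < m) {h : ℝ} {Sl : ℕ → ℝ} {κ : ℕ → Kg}
    (hκ : ∀ l < r, κ l = .one) (hκt : κ r = .stp) (hs : 2 < Sl r) {ι Λ : Type} {Q : PropG m ι}
    {Z : PropZ m Λ} (hF : F1UD m r h Sl κ Q Z) : CelZ m r h Sl κ (sumQ Q FaQ) Z :=
  celZ_ud hr hrm hκ hκt hs (velUD_of_f1 hrm (by linarith only [hs]) hF)

end Pool.PKG
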