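import Pool.Agent.H80.DIC.Treer
import Pool.Agent.H80.ASB.F1d
import Pool.Agent.H92.ALT.Adm

/-!
# `LCellB` from its parts

Cells with the kinds `one, one, k; stp`. `AdmN`: the families of labels of the last coordinate, its
rate at most full. `CbF`: the first jet of the place 2 at the windows of full rate; `CbN`: the last
coordinate at the windows with a family of small rate. `lCellB_of1`: `LCellB`.
-/

set_option autoImplicit false

namespace Pool.ASM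

open MeasureTheory Set Filter Topology
open Pool.GEN Pool.PKG Pool.SW Pool.ALT
open Pool.LA91 (FaQ sumQ HerQ her_sum her_fa aePG_fa aePG_sum)
open Pool.ONE (Ext0 Ext)
open Pool.MIC6
open Pool.STR (StaAt SteepAt ThinAt)

/-- **The families of the labels of the coordinate** `r + 1` over the coordinates before it, of which
those before `r` are exact. -/
def AdmN {n : ℕ} (r : ℕ) : AltJ → PropW n := fun i _ _ _ _ _ _ L _ _ _ g =>
  i.1.1 = r + 1 ∧ i.1.2.1 = r ∧ 0 ≤ (i.2.1 : ℝ) ∧ (i.2.2.1 : ℝ) ≤ 1 ∧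
  (i.2.1 : ℝ) + L (r + 1) g g < 1 ∧ (i.2.2.2 : ℝ) < L (r + 1) g g ∧
  L (r + 1) g g + L r g g < 1 + (i.2.2.2 : ℝ)

/-- The families of labels of the last coordinate, for four coordinates. -/
theorem admN_eq : (AdmN 2 : AltJ → PropW 4) = AdmL 4 := by
  funext i S P θ c Pt r L T κ G g
  have h1 : ((i.2.2.1 : ℝ) ≤ 1) ↔ i.2.2.1 ≤ 1 := by exact_mod_cast Iff.rfl
  have h2 : (0 ≤ (i.2.1 : ℝ)) ↔ 0 ≤ i.2.1 := by exact_mod_cast Iff.rfl
  apply propext
  simp only [AdmN, AdmL, h1, h2]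

/-- The slopes of the kinds `one, one, k; stp`. -/
structure SlB (k : Kg) (Sl : ℕ → ℝ) : Prop where
  s0 : Sl 0 = 1
  s1 : Sl 1 = 1
  thin : k = .thin → 1 < Sl 2
  sta : k = .sta → 2 ≤ Sl 2
  stp : k = .stp → 2 < Sl 2
  s3 : 2 < Sl 3

/-- **The first jet of the place 2** is few bits beyond its level, at the windows where all the rates
of the last coordinate are full, for the slopes with `Φ`, in a subclass chosen after the windows; or
the level of the place 2 has no drop there (`F1US`, `F1UZ` give it: `F1US.d`, `F1UZ.d`). -/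
def CbF (k : Kg) (Φ : (ℕ → ℝ) → Prop) : Prop :=
  ∃ (ι : Type) (_ : Countable ι) (Q : PropG 4 ι), AePG 4 Q ∧ HerQ Q ∧
    ∀ h : ℝ, 0 < h → h ≤ 1 → ∀ Sl : ℕ → ℝ, SlB k Sl → Φ Sl →
      F1UD 4 2 h Sl (kg4 .one .one k .stp) Q
        (fun b : PosR × ℕ => FulR (AdmN 2) (Sl 3 * Real.log 2) b.1 b.2)

/-- **The last coordinate has no drop** at the windows with a family of small rate, for the slopes
with `Φ`. -/
def CbN (k : Kg) (Φ : (ℕ → ℝ) → Prop) : Prop :=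
  ∃ (ι : Type) (_ : Countable ι) (Q : PropG 4 ι), AePG 4 Q ∧ HerQ Q ∧
    ∀ h : ℝ, 0 < h → h ≤ 1 → ∀ Sl : ℕ → ℝ, SlB k Sl → Φ Sl →
      ∀ β' : ℝ, β' < Sl 3 * Real.log 2 → ∀ D : ℕ,
        CelZ 4 3 h Sl (kg4 .one .one k .stp) Q (fun e : PosR => LowE (AdmN 2) β' D e)

/-- `CelZ` with other names of the parameters of the property. -/
theorem _root_.Pool.PKG.CelZ.map {ι ι' Lm : Type} {n i : ℕ} {h : ℝ} {Sl : ℕ → ℝ} {κ : ℕ → Kg}
    {Q : PropG n ι} {Q' : PropG n ι'} {Z : Lm → PropW n} (H : CelZ n i h Sl κ Q Z) (f : ι → ι')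
    (hf : ∀ p, Q' (f p) = Q p) : CelZ n i h Sl κ Q' Z := by
  intro al hal K₀ hK₀ del hdel S₀ hS₀
  obtain ⟨K, N, A, V, h1, h2, H⟩ := H al hal K₀ hK₀ del hdel S₀ hS₀
  refine ⟨K, N, A, V, h1, h2, fun S₂ hS₂ => ?_⟩
  obtain ⟨lam, K', N', V', h3, h4, ε, hε, H⟩ := H S₂ hS₂
  refine ⟨lam, K', N', V', h3, h4, ε, hε, fun S g₀ P θ P₂ θ₂ Eb e₂ c Pt r L T G g hG hg hd hZ => ?_⟩
  obtain ⟨p, M, B₀, B₁, hB, H⟩ := H S g₀ P θ P₂ θ₂ Eb e₂ c Pt r L T G g hG hg hd hZ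
  refine ⟨fun k => f (p k), M, B₀, B₁, hB, fun k₀ hk₀ => ?_⟩
  simp only [hf] at hk₀ ⊢
  exact H k₀ hk₀

/-- Both kinds of slopes. -/
theorem CbF.or {k : Kg} {Φ Φ' : (ℕ → ℝ) → Prop} (H : CbF k Φ) (H' : CbF k Φ') :
    ∃ (ι : Type) (_ : Countable ι) (Q : PropG 4 ι), AePG 4 Q ∧ HerQ Q ∧
    ∀ h : ℝ, 0 < h → h ≤ 1 → ∀ Sl : ℕ → ℝ, SlB k Sl → Φ Sl ∨ Φ' Sl → k = .stp →
      CelZ 4 2 h Sl (kg4 .one .one k .stp) Q
        (fun b : PosR × ℕ => FulR (AdmN 2) (Sl 3 * Real.log 2) b.1 b.2) := by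
  obtain ⟨ι, hι, Q, h1, h2, H⟩ := H
  obtain ⟨ι', hι', Q', h1', h2', H'⟩ := H'
  refine ⟨(ι ⊕ (ℕ × ℕ × ℚ × ℚ)) ⊕ (ι' ⊕ (ℕ × ℕ × ℚ × ℚ)), inferInstance,
    sumQ (sumQ Q FaQ) (sumQ Q' FaQ), aePG_sum (aePG_sum h1 h2 (aePG_fa 4))
      (her_sum h2 (her_fa 4)) (aePG_sum h1' h2' (aePG_fa 4)), her_sum (her_sum h2 (her_fa 4))
      (her_sum h2' (her_fa 4)), ?_⟩
  rintro h hh hh1 Sl hS (hΦ | hΦ) hk
  · refine (celZ_f1d (by norm_num) (by norm_num) (fun l hl => ?_) ?_ (hS.stp hk)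
      (H h hh hh1 Sl hS hΦ)).inl
    · interval_cases l <;> rfl
    · rw [hk]
      rfl
  · refine (celZ_f1d (by norm_num) (by norm_num) (fun l hl => ?_) ?_ (hS.stp hk)
      (H' h hh hh1 Sl hS hΦ)).inr
    · interval_cases l <;> rfl
    · rw [hk]
      rfl

/-- **`LCellB` from the cases at the window**, the kinds as a list. -/
theorem lCellB_of_c4 {ι : Type} [Countable ι] {Q : PropG 4 ι} (hQ : AePG 4 Q)
    (hcls : ∀ h : ℝ, 0 < h → h ≤ 1 → ∀ Sl : ℕ → ℝ, Sl 0 = 1 → Sl 1 = 1 → 2 < Sl 2 → 2 < Sl 3 →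
      CasW 4 {2, 3} h Sl (kg4 .one .one .stp .stp) Q (TruW 4)) : LCellB := fun _ => by
  refine (Tol.le (1 / 2) (by norm_num)).mono fun η hη => ?_
  intro hn _ hF hTop D hD hD1 _ S P r P' Λ PB H o
  have h1 := hη D hD
  filter_upwards [stas_of_c (κ := kg4 .one .one .stp .stp) (I := {2, 3}) hQ H hTop hF
    ((1 - η D) * D) (fun _ => True) (fun i hi => by
      rcases hi with rfl | hi
      · norm_num
      · rw [Set.mem_singleton_iff] at hi
        rw [hi])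
    (fun Sl _ k1 _ => hcls _ (mul_pos (by linarith) hD) (by nlinarith) Sl
      ((k1 0 (by omega)).1 rfl) ((k1 1 (by omega)).1 rfl) ((k1 2 (by omega)).2.2.2 rfl)
      ((k1 3 (by omega)).2.2.2 rfl)) o] with g h2 R _ hst hs e0 e1 hs2 hst2
  have h5 : LvL hn P P' o (4 - 1) = P := lvL_last o
  have h7 : LvL hn P P' o 3 = P := h5
  have h6 : LvT hn PB o 3 = PT hn PB o := LvT_top o
  have h3 := h2 R trivial fun l hl => ?_
  · obtain ⟨i, hi, h3⟩ := h3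
    rcases hi with rfl | hi
    · exact Or.inl h3
    · rw [Set.mem_singleton_iff] at hi
      rw [hi, h7] at h3
      exact Or.inr h3
  · have h4 : l = 0 ∨ l = 1 ∨ l = 2 ∨ l = 3 := by omega
    rcases h4 with rfl | rfl | rfl | rfl
    · exact e0
    · exact e1
    · exact ⟨hs2, hst2⟩
    · refine ⟨?_, ?_⟩
      · rw [h7]
        exact hs
      · rw [h6]
        exact hst

/-- **`LCellB` from its parts**: the first jet of `u` at the windows of full rate, the slope of the last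
coordinate less than, more than, or equal to the slope of `u`; the last coordinate at the windows with
a family of small rate. -/
theorem lCellB_of1 (h1 : CbF .stp (fun Sl => Sl 3 < Sl 2)) (h2 : CbF .stp (fun Sl => Sl 2 < Sl 3))
    (h3 : CbF .stp (fun Sl => Sl 3 = Sl 2)) (h4 : CbN .stp (fun _ => True)) : LCellB := by
  obtain ⟨ι₁, hι₁, Q₁, a1, b1, H1⟩ := h1.or h2
  obtain ⟨ι₃, hι₃, Q₃, a3, b3, H3⟩ := h3.or h3
  obtain ⟨ι₄, hι₄, Q₄, a4, b4, H4⟩ := h4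
  have hher : HerQ (sumQ (sumQ Q₁ Q₃) Q₄) := her_sum (her_sum b1 b3) b4
  refine lCellB_of_c4 (Q := sumQ (sumQ (sumQ Q₁ Q₃) Q₄) (AltQ : PropG 4 AltI))
    (aePG_sum (aePG_sum (aePG_sum a1 b1 a3) (her_sum b1 b3) a4) hher (aePG_alt 4))
    fun h hh hh1 Sl s0 s1 s2 s3 => ?_
  have hS : SlB .stp Sl := ⟨s0, s1, (nomatch ·), (nomatch ·), fun _ => s2, s3⟩
  refine CasW.rt (AdmN 2) (Sl 3 * Real.log 2) (fun _ _ _ _ _ _ _ _ _ _ h => allQ_inr h) ?_
    fun β' hβ' D => ?_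
  · have key : CelZ 4 2 h Sl (kg4 .one .one .stp .stp)
        (sumQ (sumQ (sumQ Q₁ Q₃) Q₄) (AltQ : PropG 4 AltI))
        (fun b : PosR × ℕ => FulR (AdmN 2) (Sl 3 * Real.log 2) b.1 b.2) := by
      rcases lt_trichotomy (Sl 3) (Sl 2) with hab | hab | hab
      · exact (H1 h hh hh1 Sl hS (Or.inl hab) rfl).inl.inl.inl
      · exact ((H3 h hh hh1 Sl hS (Or.inl hab) rfl).inr.inl).inl
      · exact (H1 h hh hh1 Sl hS (Or.inr hab) rfl).inl.inl.inl
    exact CasW.ful (Or.inl rfl) (key.mono id fun _ _ _ _ _ _ _ _ _ _ _ hZ => hZ.2)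
  · exact CasW.low (Or.inr rfl) ((H4 h hh hh1 Sl hS trivial β' hβ' D).inr.inl.mono id
      fun _ _ _ _ _ _ _ _ _ _ _ hZ => hZ.2)

end Pool.ASM
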