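import Pool.Agent.H92.ALT.Jn5

/-!
# `LCellB` from the first jet of the place 2

`lCellB_of2`: `LCellB` from the first jet of `u` at the windows of full rate; at the other windows the
last coordinate has no drop (`cbN_stp`).
-/

set_option autoImplicit false

namespace Pool.ASM

/-- **`LCellB` from the first jet of** `u` at the windows of full rate, the slope of the last
coordinate less than, more than, or equal to the slope of `u`. -/
theorem lCellB_of2 (h1 : CbF .stp (fun Sl => Sl 3 < Sl 2)) (h2 : CbF .stp (fun Sl => Sl 2 < Sl 3))
    (h3 : CbF .stp (fun Sl => Sl 3 = Sl 2)) : LCellB := lCellB_of1 h1 h2 h3 cbN_stp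

end Pool.ASM
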